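import Pool.Agent.Work.MP_0d9e46_mp.Point
import Pool.Agent.Work.MP_0d9e46_mp.Inst

open Pool.Agent.Work.MP_0d9e46_mp

namespace Pool.Agent.Results.MP_0d9e46_mp.Density

theorem result :
    (∀ γ : ℝ, 0 < γ → γ < 2 / Real.pi →
      DensityTendsto (fun (ξ : E3) (u : ℂ) => ((En γ ξ - γ⁻¹ ^ 2 : ℝ) : ℂ) * u) (fun _ u => u)
        (Set.Iio 0) 2 (2 * √2 / (3 * Real.pi ^ 2))) ∧
    (∀ γ : ℝ, 0 < γ → γ < 2 / (Real.pi / 2 + 2 / Real.pi) →
      DensityTendsto (act (diracM γ)) (act (posM γ)) (Set.Iio (γ⁻¹ ^ 2)) 1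
        (2 * √2 / (3 * Real.pi ^ 2))) ∧
    (∀ γ : ℝ, 0 < γ → γ < 1 →
      DensityTendsto (act (diracM γ)) (fun _ u => u) (Set.Ioo 0 (γ⁻¹ ^ 2)) 1
        (2 * √2 / (3 * Real.pi ^ 2))) := by
  have hp := Real.pi_gt_three
  refine ⟨fun γ h0 h1 => ?_, fun γ h0 h1 => ?_, fun γ h0 h1 => ?_⟩
  · obtain ⟨M, e1, e2, e3, e4⟩ := exists_model_chandra h0
      (h1.trans (by rw [div_lt_one (by linarith)]; linarith))
    have := M.densityLimit 2
    rw [e1, e2, e3, e4, show (2 : ℝ) * (1 * (√2 / (3 * Real.pi ^ 2))) =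
      2 * √2 / (3 * Real.pi ^ 2) by ring] at this
    have k := (densityTendsto_iff (chandra γ) (fun _ => ContinuousLinearMap.id ℂ ℂ) _ _ _).2 this
    simp only [chandra, ContinuousLinearMap.smul_apply, ContinuousLinearMap.id_apply,
      smul_eq_mul] at k
    exact k
  · have h2 : 2 / (Real.pi / 2 + 2 / Real.pi) < 1 := by
      have h3 : 2 < Real.pi / 2 + 2 / Real.pi := by
        rw [div_add_div _ _ two_ne_zero (by linarith), lt_div_iff₀ (by linarith)]
        nlinarith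
      rw [div_lt_one (by linarith)]
      exact h3
    obtain ⟨M, e1, e2, e3, e4⟩ := exists_model_brown h0 (h1.trans h2)
    have := M.densityLimit 1
    rw [e1, e2, e3, e4, show (1 : ℝ) * (2 * (√2 / (3 * Real.pi ^ 2))) =
      2 * √2 / (3 * Real.pi ^ 2) by ring] at this
    rw [act_dirac, act_pos]
    exact (densityTendsto_iff (dirac γ) (posProj γ) _ _ _).2 this
  · obtain ⟨M, e1, e2, e3, e4⟩ := exists_model_furry h0 h1
    have := M.densityLimit 1
    rw [e1, e2, e3, e4, show (1 : ℝ) * (2 * (√2 / (3 * Real.pi ^ 2))) =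
      2 * √2 / (3 * Real.pi ^ 2) by ring] at this
    rw [act_dirac]
    have k := (densityTendsto_iff (dirac γ) (fun _ => ContinuousLinearMap.id ℂ C4) _ _ _).2 this
    simp only [ContinuousLinearMap.id_apply] at k
    exact k

end Pool.Agent.Results.MP_0d9e46_mp.Density
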